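import Pool.Agent.Q8.GP.Defs
import Pool.Agent.H447R3.DegDefs
import Pool.Agent.H914R2.HodgeDefs

/-!
# The conjecture D in one codimension: definitions
-/

open CategoryTheory AlgebraicGeometry

universe u v

namespace Pool.Agent.Q8.DC

open Pool.Agent.H914 Pool.Agent.H914.VarClass Pool.Agent.H914.VarClass.Obj
  Pool.Agent.H914.WeilCohomology Pool.Agent.W534

variable {k : Type u} [Field k] {𝒱 : VarClass k} {ops : CycleOps 𝒱}

/-- The class `x` is orthogonal to the classes of all cycles of codimension `dim Y - p`. -/
def OrthToCycles (W : WeilCohomology.{u, v} ops) (Y : 𝒱.Obj) (p : ℤ) (x : W.H Y) : Prop :=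
  ∀ y ∈ spanCycles W Y (Y.dim - p), W.tr Y (x * y) = 0

/-- The space of the numerically trivial classes of codimension `p` on `Y`: the combinations of
classes of cycles of codimension `p` (coefficients in the coefficient field of the theory) which are
orthogonal to all combinations of classes of cycles of codimension `dim Y - p`. -/
def nullSpace (W : WeilCohomology.{u, v} ops) (Y : 𝒱.Obj) (p : ℤ) : Submodule W.K (W.H Y) :=
  Submodule.span W.K {x | x ∈ spanCycles W Y p ∧ OrthToCycles W Y p x}

/-- The dimension of the space of numerically trivial classes of codimension `p`. -/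
noncomputable def nullRank (W : WeilCohomology.{u, v} ops) (Y : 𝒱.Obj) (p : ℤ) : ℕ :=
  Module.finrank W.K (nullSpace W Y p)

/-- The rank of the intersection pairing between the classes of codimension `p` and `dim Y - p`. -/
noncomputable def pairRank (W : WeilCohomology.{u, v} ops) (Y : 𝒱.Obj) (p : ℤ) : ℕ :=
  cycleRank W Y p - nullRank W Y p

/-- The dimension of the space of all algebraic classes on `X`. -/
noncomputable def algRank (W : WeilCohomology.{u, v} ops) (X : 𝒱.Obj) : ℕ :=
  ∑ b ∈ Finset.range (X.dim + 1), cycleRank W X b

/-- `E` is a divisor on `Z` such that the intersection number `E ^ dim Z` is not zero, for instance an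
ample divisor. -/
def HasDegree (ops : CycleOps 𝒱) (Z : 𝒱.Obj) (E : Z.Cycles) : Prop :=
  Z.IsCyc 1 E ∧ Z.V.degCycle (divPow ops E Z.dim Z.V.fundCycle) ≠ 0

end Pool.Agent.Q8.DC
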