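import Pool.Agent.Q8.DC.Main

/-!
# The conjecture D in one codimension: the final statements
-/

open CategoryTheory AlgebraicGeometry

universe u v

namespace Pool.Agent.Q8.DC

open Pool.Agent.H914 Pool.Agent.H914.VarClass Pool.Agent.H914.VarClass.Obj
  Pool.Agent.H914.WeilCohomology Pool.Agent.Y133.Half Pool.Agent.TH133.PW
  Pool.Agent.W550.B Pool.Agent.Q8.OL Pool.Agent.W534 Pool.Agent.H447 Pool.Agent.Q8.GP

variable {k : Type u} [Field k] {𝒱 : VarClass k} {ops : CycleOps 𝒱}

/-- The conjecture D in the codimension `p` says that the dimension `nullRank` of the space of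
numerically trivial classes of codimension `p` is zero; the rank of the pairing is symmetric. **The
law for products**: the number of numerically trivial classes of codimension `p` on `Y × Z` is at
least the sum over `b` of `c_Y(p - b) c_Z(b) - r_Y(p - b) r_Z(b)`, where `c` is the dimension of the
space of algebraic classes and `r` the rank of the pairing. -/
def NullLaw (W : WeilCohomology.{u, v} ops) : Prop :=
  (∀ (Y : 𝒱.Obj) (p : ℕ), HomEqNumIn W Y p ↔ nullRank W Y p = 0) ∧
  (∀ (Y : 𝒱.Obj) (p : ℤ), nullRank W Y p ≤ cycleRank W Y p ∧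
    pairRank W Y (Y.dim - p) = pairRank W Y p) ∧
  ∀ (Y Z : 𝒱.Obj) (p : ℤ), ∑ b ∈ Finset.range (Z.dim + 1),
    ((cycleRank W Y (p - b) * cycleRank W Z b : ℤ) - pairRank W Y (p - b) * pairRank W Z b) ≤
      nullRank W (Y.prod Z) p

/-- **One codimension of `X × X × Z`**: let `n = dim X` and let `Z` be any variety with a divisor `E`
with `E ^ dim Z ≠ 0`. The conjecture D for `X × X × Z` in one codimension `p` with
`n + 1 ≤ p ≤ n + 1 + dim Z` implies the conjecture B for `X`. -/
def OneCodimD (W : WeilCohomology.{u, v} ops) (X : 𝒱.Obj) (D : X.Cycles) : Prop :=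
  ∀ (Z : 𝒱.Obj) (E : Z.Cycles), HasDegree ops Z E → ∀ p, X.dim + 1 ≤ p → p ≤ X.dim + 1 + Z.dim →
    HomEqNumIn W ((X.prod X).prod Z) p → LefschetzB W X D

/-- **Powers**: let `n = dim X`, `N = (m + 1) n` the dimension of the power `pw X m` (`m + 1` copies
of `X`), `n + 1 ≤ p ≤ m n + 1` and `e = min p (N - p)`. The conjecture D for the power in the
codimension `p` is equivalent to B for `X` together with D for the power in all codimensions
`q ≤ e` and `q ≥ N - e`; and it implies D in all codimensions for the powers of dimension at most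
`2 e`. -/
def PowerD (W : WeilCohomology.{u, v} ops) (X : 𝒱.Obj) (D : X.Cycles) : Prop :=
  ∀ m p : ℕ, X.dim + 1 ≤ p → p ≤ m * X.dim + 1 →
    (HomEqNumIn W (pw X m) p ↔ LefschetzB W X D ∧
      ∀ q, q ≤ min p ((m + 1) * X.dim - p) ∨
        (m + 1) * X.dim ≤ q + min p ((m + 1) * X.dim - p) → HomEqNumIn W (pw X m) q) ∧
    (HomEqNumIn W (pw X m) p → ∀ a, (a + 1) * X.dim ≤ 2 * min p ((m + 1) * X.dim - p) →
      HomEqNum W (pw X a))

/-- **The middle codimension**: for the cube and all higher powers `pw X m`, `m ≥ 2`, the conjecture D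
in the single codimension `p = N / 2`, or `p = (N + 1) / 2` if `N` is odd, `N = (m + 1) dim X`, is
equivalent to the conjecture D for this power in all codimensions, and implies B for `X`. -/
def MiddleD (W : WeilCohomology.{u, v} ops) (X : 𝒱.Obj) (D : X.Cycles) : Prop :=
  ∀ m p : ℕ, 2 ≤ m → (m + 1) * X.dim ≤ 2 * p → 2 * p ≤ (m + 1) * X.dim + 1 →
    (HomEqNumIn W (pw X m) p ↔ HomEqNum W (pw X m)) ∧
    (HomEqNumIn W (pw X m) p → LefschetzB W X D)

/-- **The growth of the number of numerically trivial classes** with the powers of `X`, from any power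
`pw X a` on: a numerically trivial class of codimension `q` on it gives at least `s(p - q)` of them
in the codimension `p` on `pw X (a + r)`, where `s(t)` is the number of `(a_1, ..., a_r)` with
`0 ≤ a_i ≤ n` and sum `t`; and the sum of their numbers over all codimensions is multiplied at least
by the `r`-th power of the dimension of the space of algebraic classes on `X`. If B fails for `X`
there are nonzero ones on `X × X` in the codimension `n + 1`, and on `pw X m`, `m ≥ 1`, in each
codimension from `n + 1` to `m n + 1`. -/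
def GrowthD (W : WeilCohomology.{u, v} ops) (X : 𝒱.Obj) (D : X.Cycles) : Prop :=
  (∀ (a r : ℕ),
    (∀ q p : ℤ, nullRank W (pw X a) q * sols (fun _ => X.dim) r (p - q) ≤
      nullRank W (pw X (a + r)) p) ∧
    (∑ q ∈ Finset.range ((a + 1) * X.dim + 1), nullRank W (pw X a) q) * algRank W X ^ r ≤
      ∑ p ∈ Finset.range ((a + r + 1) * X.dim + 1), nullRank W (pw X (a + r)) p) ∧
  X.dim + 1 ≤ algRank W X ∧
  (¬ LefschetzB W X D → 1 ≤ nullRank W (X.prod X) (X.dim + 1) ∧
    ∀ m p : ℕ, X.dim + 1 ≤ p → p ≤ m * X.dim + 1 → 1 ≤ nullRank W (pw X m) p)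

/-- **D for all varieties is its case `2 p = dim V + t`, for any one integer `t`** (if some variety of
the class is a curve with a divisor of nonzero degree). -/
def LineLaw (W : WeilCohomology.{u, v} ops) : Prop :=
  ∀ (C : 𝒱.Obj) (E : C.Cycles), Pool.Agent.Q55.Od.IsCurveWith C E → ∀ t : ℤ,
    (∀ (V : 𝒱.Obj) (p : ℕ), 2 * (p : ℤ) = V.dim + t → HomEqNumIn W V p) ↔
      ∀ V : 𝒱.Obj, HomEqNum W V

/-- **D for the cycles of one dimension `r` on all varieties** implies D for the cycles of dimension
at most `r`, and, for the varieties `V` with a divisor which satisfies hard Lefschetz, B if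
`dim V ≤ r + 1`, D for the cycles of codimension at most `r`, and D in all codimensions if
`dim V ≤ 2 r + 1`. -/
def DimLaw (W : WeilCohomology.{u, v} ops) : Prop :=
  ∀ (C : 𝒱.Obj) (E : C.Cycles), Pool.Agent.Q55.Od.IsCurveWith C E → ∀ r : ℕ,
    (∀ (V : 𝒱.Obj) (p : ℕ), p + r = V.dim → HomEqNumIn W V p) →
      (∀ (V : 𝒱.Obj) (q : ℕ), V.dim ≤ q + r → HomEqNumIn W V q) ∧
      ∀ (V : 𝒱.Obj) (D : V.Cycles), IsLefschetzDivisor W V D →
        (V.dim ≤ r + 1 → LefschetzB W V D) ∧ (∀ q ≤ r, HomEqNumIn W V q) ∧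
        (V.dim ≤ 2 * r + 1 → HomEqNum W V)

variable {W : WeilCohomology.{u, v} ops} {X : 𝒱.Obj}

theorem nullLaw : NullLaw W := by
  refine ⟨fun Y p => nullRank_eq_zero.symm, fun Y p => ⟨nullRank_le p, ?_⟩,
    fun Y Z p => null_law Y Z p⟩
  have h1 := pair_le (W := W) (Y := Y) p
  have h2 := pair_le (W := W) (Y := Y) (Y.dim - p)
  rw [sub_sub_cancel] at h2
  have h3 := nullRank_le (W := W) (Y := Y) p
  have h4 := nullRank_le (W := W) (Y := Y) (Y.dim - p)
  unfold pairRank
  omega

theorem oneCodimD {D : X.Cycles} (hX : IsLefschetzDivisor W X D) : OneCodimD W X D :=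
  fun _ _ hE _ h1 h2 h => lefschetzB_of_prod hX hE h1 h2 h

theorem powerD [Nontrivial (W.H X)] {D : X.Cycles} (hX : IsLefschetzDivisor W X D)
    (hn : 1 ≤ X.dim) : PowerD W X D := by
  intro m p h1 h2
  have hp : p ≤ (m + 1) * X.dim := by
    rw [add_mul, one_mul]
    omega
  refine ⟨⟨fun h => ?_, fun h => h.2 p ?_⟩, fun h a ha => ?_⟩
  · have hB := lefschetzB_of_pw hX h1 h2 h
    exact ⟨hB, fun q hq => pw_all hX hB rfl h hp hq⟩
  · rcases le_total p ((m + 1) * X.dim - p) with h3 | h3
    · left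
      rw [min_eq_left h3]
    · right
      rw [min_eq_right h3]
      omega
  · exact pw_small hX (lefschetzB_of_pw hX h1 h2 h) hn rfl h hp ha

theorem middleD [Nontrivial (W.H X)] {D : X.Cycles} (hX : IsLefschetzDivisor W X D)
    (hn : 1 ≤ X.dim) : MiddleD W X D := by
  intro m p hm h1 h2
  have h3 : X.dim + 1 ≤ p := by
    have : 3 * X.dim ≤ (m + 1) * X.dim := Nat.mul_le_mul_right _ (by omega)
    omega
  have h4 : p ≤ m * X.dim + 1 := by
    have : 2 * X.dim ≤ m * X.dim := Nat.mul_le_mul_right _ hm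
    rw [add_mul, one_mul] at h2
    omega
  have hp : p ≤ (m + 1) * X.dim := by
    rw [add_mul, one_mul]
    omega
  have hB := fun h => lefschetzB_of_pw hX h3 h4 h
  refine ⟨⟨fun h => ?_, fun h => (homEqNum_iff_all.1 h) p⟩, hB⟩
  rw [homEqNum_iff_all]
  intro q
  refine pw_all hX (hB h) rfl h hp ?_
  rw [min_eq_right (by omega)]
  omega

theorem growthD [Nontrivial (W.H X)] {D : X.Cycles} (hX : IsLefschetzDivisor W X D) :
    GrowthD W X D := by
  refine ⟨fun a r => ⟨fun q p => pw_sols hX a q r p, pw_count a r⟩, ?_, fun hB => ⟨?_, ?_⟩⟩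
  · unfold algRank
    refine le_trans (le_of_eq ?_) (Finset.sum_le_sum (f := fun _ => 1) fun b hb =>
      cycleRank_pos (W := W) (hasDegree_lef hX) (show b ≤ X.dim by
        rw [Finset.mem_range] at hb
        omega))
    rw [Finset.sum_const, Finset.card_range, smul_eq_mul, mul_one]
  · rw [Nat.one_le_iff_ne_zero]
    intro h
    exact hB (lefschetzB_of_homEqNumIn hX.1 hX.2 (nullRank_eq_zero.1 (by
      push_cast
      exact h)))
  · intro m p h1 h2
    rw [Nat.one_le_iff_ne_zero, Ne, nullRank_eq_zero]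
    exact fun h => hB (lefschetzB_of_pw hX h1 h2 h)

theorem lineLaw : LineLaw W :=
  fun _ _ hC _ => ⟨fun h V => line_law hC h V, fun h V p _ => homEqNum_iff_all.1 (h V) p⟩

theorem dimLaw : DimLaw W := fun _ _ hC _ h =>
  ⟨fun _ _ hq => dim_law hC h hq, fun _ _ hV => dim_B (fun _ _ hq => dim_law hC h hq) hV⟩

end Pool.Agent.Q8.DC
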