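import Pool.Agent.Q8.DC.Prod

/-!
# The law for numerically trivial classes on a product
-/

open CategoryTheory AlgebraicGeometry

universe u v

namespace Pool.Agent.Q8.DC

open Module
open Pool.Agent.H914 Pool.Agent.H914.VarClass Pool.Agent.H914.VarClass.Obj
  Pool.Agent.H914.WeilCohomology Pool.Agent.Y133.Half Pool.Agent.Q55.Fin Pool.Agent.Q8.KC
  Pool.Agent.TH133.PW Pool.Agent.W536.RR Pool.Agent.H281R3.HT Pool.Agent.W550.B
  Pool.Agent.Q8.OL Pool.Agent.W534 Pool.Agent.H447 Pool.Agent.Q8.GP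

variable {k : Type u} [Field k] {𝒱 : VarClass k} {ops : CycleOps 𝒱}
  {W : WeilCohomology.{u, v} ops} {X Y Z : 𝒱.Obj}

/-- Independence of homogeneous families. -/
lemma indep_sigma {d : ℕ} {ι : Fin (d + 1) → Type} [∀ b, Fintype (ι b)]
    {z : ∀ b, ι b → W.H Z} (hz : ∀ b, LinearIndependent W.K (z b))
    (hg : ∀ (b : Fin (d + 1)) (i : ι b), z b i ∈ W.gr Z (2 * (b : ℕ))) :
    LinearIndependent W.K (fun x : Σ b, ι b => z x.1 x.2) := by
  rw [Fintype.linearIndependent_iff]
  rintro g h0 ⟨b, i⟩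
  rw [Fintype.sum_sigma] at h0
  have h1 := congrArg (proj (W.isInternal Z) (2 * (b : ℕ))) h0
  rw [map_sum, map_zero, Finset.sum_eq_single b] at h1
  · have h2 : ∑ i, g ⟨b, i⟩ • z b i = 0 := by
      rw [← h1, map_sum]
      refine Finset.sum_congr rfl fun i _ => ?_
      rw [map_smul, proj_same _ (hg b i)]
    exact Fintype.linearIndependent_iff.1 (hz b) (fun i => g ⟨b, i⟩) h2 i
  · intro c _ hc
    rw [map_sum]
    refine Finset.sum_eq_zero fun i _ => ?_
    rw [map_smul, proj_ne _ (hg c i) (by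
      intro h
      exact hc (Fin.ext (by omega))), smul_zero]
  · intro h
    exact absurd (Finset.mem_univ _) h

lemma sc_gr {b : ℕ} {x : W.H Z} (hx : x ∈ spanCycles W Z b) : x ∈ W.gr Z (2 * b) := by
  have h := (mem_sc.1 hx).2
  rwa [show (2 * (b : ℤ)) = ((2 * b : ℕ) : ℤ) by push_cast; ring, grZ_natCast] at h

/-- The classes which are not numerically trivial. -/
lemma exists_compl (b : ℤ) : ∃ R : Submodule W.K (W.H Z), R ≤ spanCycles W Z b ∧
    Disjoint (nullSpace W Z b) R ∧ finrank W.K R = pairRank W Z b := by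
  obtain ⟨R, hR⟩ := Submodule.exists_isCompl (nullSpace W Z b)
  refine ⟨R ⊓ spanCycles W Z b, inf_le_right, hR.disjoint.mono_right inf_le_left, ?_⟩
  have h1 : nullSpace W Z b ⊔ R ⊓ spanCycles W Z b = spanCycles W Z b := by
    rw [← sup_inf_assoc_of_le R (null_le b), hR.sup_eq_top, top_inf_eq]
  have h2 := Submodule.finrank_sup_add_finrank_inf_eq (nullSpace W Z b)
    (R ⊓ spanCycles W Z b)
  rw [h1, (hR.disjoint.mono_right inf_le_left).eq_bot, finrank_bot] at h2
  unfold pairRank cycleRank nullRank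
  omega

/-- **The law for products**, with the classes of `Z` sorted. -/
lemma null_law_nat (Y Z : 𝒱.Obj) (p : ℤ) : ∑ b ∈ Finset.range (Z.dim + 1),
    (nullRank W Z b * cycleRank W Y (p - b) + pairRank W Z b * nullRank W Y (p - b)) ≤
      nullRank W (Y.prod Z) p := by
  classical
  choose R hR1 hR2 hR3 using fun b : Fin (Z.dim + 1) => exists_compl (W := W) (Z := Z) ((b : ℕ) : ℤ)
  let v : ∀ b : Fin (Z.dim + 1), Fin (finrank W.K (nullSpace W Z ((b : ℕ) : ℤ))) → W.H Z :=
    fun b i => (finBasis W.K (nullSpace W Z ((b : ℕ) : ℤ)) i : W.H Z)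
  let v' : ∀ b : Fin (Z.dim + 1), Fin (finrank W.K (R b)) → W.H Z :=
    fun b i => (finBasis W.K (R b) i : W.H Z)
  have hv1 : ∀ (b : Fin (Z.dim + 1)) i, v b i ∈ nullSpace W Z ((b : ℕ) : ℤ) :=
    fun b i => Subtype.coe_prop _
  have hv1' : ∀ (b : Fin (Z.dim + 1)) i, v' b i ∈ R b := fun b i => Subtype.coe_prop _
  have hv : ∀ b, LinearIndependent W.K (v b) := fun b =>
    (finBasis W.K (nullSpace W Z ((b : ℕ) : ℤ))).linearIndependent.map' _
      (Submodule.ker_subtype _)
  have hv' : ∀ b, LinearIndependent W.K (v' b) := fun b =>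
    (finBasis W.K (R b)).linearIndependent.map' _ (Submodule.ker_subtype _)
  let z : ∀ b : Fin (Z.dim + 1), (Fin (finrank W.K (nullSpace W Z ((b : ℕ) : ℤ))) ⊕
    Fin (finrank W.K (R b))) → W.H Z := fun b => Sum.elim (v b) (v' b)
  have hz : ∀ b, LinearIndependent W.K (z b) := by
    intro b
    refine (hv b).sum_type (hv' b) ((hR2 b).mono ?_ ?_)
    · rw [Submodule.span_le]
      rintro _ ⟨i, rfl⟩
      exact hv1 b i
    · rw [Submodule.span_le]
      rintro _ ⟨i, rfl⟩
      exact hv1' b i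
  have hg : ∀ (b : Fin (Z.dim + 1)) i, z b i ∈ W.gr Z (2 * (b : ℕ)) := by
    intro b i
    rcases i with i | i
    · exact sc_gr (null_le _ (hv1 b i))
    · exact sc_gr (hR1 b (hv1' b i))
  let S : (Σ b : Fin (Z.dim + 1), (Fin (finrank W.K (nullSpace W Z ((b : ℕ) : ℤ))) ⊕
      Fin (finrank W.K (R b)))) → Submodule W.K (W.H Y) := fun x =>
    Sum.elim (fun _ => spanCycles W Y (p - ((x.1 : ℕ) : ℤ)))
      (fun _ => nullSpace W Y (p - ((x.1 : ℕ) : ℤ))) x.2
  have h1 := finrank_fam (W := W) (Y := Y) (indep_sigma hz hg) (S := S)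
    (N := nullSpace W (Y.prod Z) p) (by
      rintro ⟨b, i | i⟩ x hx
      · have h2 := null_prod_right (W := W) (a := p - ((b : ℕ) : ℤ)) (x := x) hx (hv1 b i)
        rwa [sub_add_cancel] at h2
      · have h2 := null_prod_left (W := W) (a := p - ((b : ℕ) : ℤ)) (x := x) hx
          (hR1 b (hv1' b i))
        rwa [sub_add_cancel] at h2)
  refine le_trans (le_of_eq ?_) h1
  rw [Fintype.sum_sigma, ← Fin.sum_univ_eq_sum_range (fun b : ℕ =>
    nullRank W Z b * cycleRank W Y (p - b) + pairRank W Z b * nullRank W Y (p - b)) (Z.dim + 1)]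
  refine Finset.sum_congr rfl fun b _ => ?_
  rw [Fintype.sum_sum_type]
  have e1 : ∀ x : Fin (finrank W.K (nullSpace W Z ((b : ℕ) : ℤ))),
      finrank W.K (S ⟨b, Sum.inl x⟩) = cycleRank W Y (p - ((b : ℕ) : ℤ)) := fun _ => rfl
  have e2 : ∀ x : Fin (finrank W.K (R b)),
      finrank W.K (S ⟨b, Sum.inr x⟩) = nullRank W Y (p - ((b : ℕ) : ℤ)) := fun _ => rfl
  rw [Finset.sum_congr rfl (fun x _ => e1 x), Finset.sum_congr rfl (fun x _ => e2 x),
    Finset.sum_const, Finset.sum_const, Finset.card_univ, Finset.card_univ, Fintype.card_fin,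
    Fintype.card_fin, smul_eq_mul, smul_eq_mul, hR3 b]
  rfl

/-- **The law for products.** -/
theorem null_law (Y Z : 𝒱.Obj) (p : ℤ) : ∑ b ∈ Finset.range (Z.dim + 1),
    ((cycleRank W Y (p - b) * cycleRank W Z b : ℤ) - pairRank W Y (p - b) * pairRank W Z b) ≤
      nullRank W (Y.prod Z) p := by
  refine le_trans (le_of_eq ?_) (Nat.cast_le.2 (null_law_nat (W := W) Y Z p))
  push_cast
  refine Finset.sum_congr rfl fun b _ => ?_
  have h1 := nullRank_le (W := W) (Y := Y) (p - b)
  have h2 := nullRank_le (W := W) (Y := Z) (b : ℤ)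
  have e1 : (pairRank W Y (p - b) : ℤ) = cycleRank W Y (p - b) - nullRank W Y (p - b) := by
    unfold pairRank
    omega
  have e2 : (pairRank W Z b : ℤ) = cycleRank W Z b - nullRank W Z b := by
    unfold pairRank
    omega
  rw [e1, e2]
  ring

/-- One term of the law. -/
lemma null_term {Y Z : 𝒱.Obj} {q : ℤ} {b : ℕ} (hb : b ≤ Z.dim) :
    cycleRank W Z b * nullRank W Y q ≤ nullRank W (Y.prod Z) (q + b) := by
  refine le_trans ?_ (null_law_nat (W := W) Y Z (q + b))
  refine le_trans ?_ (Finset.single_le_sum (f := fun b' : ℕ => nullRank W Z b' *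
    cycleRank W Y (q + b - b') + pairRank W Z b' * nullRank W Y (q + b - b'))
    (fun _ _ => Nat.zero_le _) (Finset.mem_range.2 (Nat.lt_succ_of_le hb)))
  rw [add_sub_cancel_right]
  have h1 := nullRank_le (W := W) (Y := Y) q
  have h2 := nullRank_le (W := W) (Y := Z) (b : ℤ)
  have e2 : cycleRank W Z b = pairRank W Z b + nullRank W Z b := by
    unfold pairRank
    omega
  rw [e2, add_mul]
  have := Nat.mul_le_mul_left (nullRank W Z b) h1
  omega

lemma null_law' (Y Z : 𝒱.Obj) (p : ℤ) : ∑ b ∈ Finset.range (Z.dim + 1),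
    cycleRank W Z b * nullRank W Y (p - b) ≤ nullRank W (Y.prod Z) p := by
  refine le_trans (Finset.sum_le_sum fun b hb => ?_) (null_law_nat (W := W) Y Z p)
  have h1 := nullRank_le (W := W) (Y := Y) (p - b)
  have h2 := nullRank_le (W := W) (Y := Z) (b : ℤ)
  have e2 : cycleRank W Z b = pairRank W Z b + nullRank W Z b := by
    unfold pairRank
    omega
  rw [e2, add_mul]
  have := Nat.mul_le_mul_left (nullRank W Z b) h1
  omega

/-- The total number. -/
lemma null_total (Y Z : 𝒱.Obj) :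
    (∑ b ∈ Finset.range (Z.dim + 1), cycleRank W Z b) *
      (∑ q ∈ Finset.range (Y.dim + 1), nullRank W Y q) ≤
        ∑ p ∈ Finset.range ((Y.prod Z).dim + 1), nullRank W (Y.prod Z) p := by
  refine le_trans ?_ (Finset.sum_le_sum fun p _ => null_law' (W := W) Y Z (p : ℤ))
  rw [Finset.sum_comm, Finset.sum_mul_sum]
  refine Finset.sum_le_sum fun b hb => ?_
  rw [Finset.mem_range] at hb
  rw [← Finset.mul_sum, ← Finset.mul_sum]
  apply Nat.mul_le_mul_left
  have h2 := dim_prod Y Z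
  rw [show (Y.prod Z).dim + 1 = b + (Y.dim + 1 + (Z.dim - b)) by omega]
  rw [Finset.sum_range_add (fun p : ℕ => nullRank W Y ((p : ℤ) - b)) b]
  refine le_trans ?_ (Nat.le_add_left _ _)
  rw [Finset.sum_range_add (fun p : ℕ => nullRank W Y (((b + p : ℕ) : ℤ) - b)) (Y.dim + 1)]
  refine le_trans (le_of_eq ?_) (Nat.le_add_right _ _)
  refine Finset.sum_congr rfl fun q _ => ?_
  congr 1
  push_cast
  ring

end Pool.Agent.Q8.DC
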