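import Pool.Agent.Q8.DC.Law

/-!
# The conjecture D in one codimension
-/

open CategoryTheory AlgebraicGeometry

universe u v

namespace Pool.Agent.Q8.DC

open Module
open Pool.Agent.H914 Pool.Agent.H914.VarClass Pool.Agent.H914.VarClass.Obj
  Pool.Agent.H914.WeilCohomology Pool.Agent.Y133.Half Pool.Agent.Q55.Fin Pool.Agent.Q8.KC
  Pool.Agent.TH133.PW Pool.Agent.W536.RR Pool.Agent.H281R3.HT Pool.Agent.W550.B
  Pool.Agent.Q8.OL Pool.Agent.W534 Pool.Agent.H447 Pool.Agent.Q8.GP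

variable {k : Type u} [Field k] {𝒱 : VarClass k} {ops : CycleOps 𝒱}
  {W : WeilCohomology.{u, v} ops} {X Y Z : 𝒱.Obj}

lemma tr_top {E : Z.Cycles} (hE : Z.IsCyc 1 E) : W.tr Z (W.cl Z E ^ Z.dim) =
    (Z.V.degCycle (divPow ops E Z.dim Z.V.fundCycle) : W.K) := by
  have h1 := divPow_mem (ops := ops) hE Z.dim Z.V.fundCycle_mem
  rw [zero_add] at h1
  rw [← W.tr_cl h1, cl_divPow, W.cl_fund, LinearMap.pow_mulLeft, LinearMap.mulLeft_apply, mul_one]

lemma HasDegree.tr_ne {E : Z.Cycles} (hE : HasDegree ops Z E) :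
    W.tr Z (W.cl Z E ^ Z.dim) ≠ 0 := by
  rw [tr_top hE.1]
  exact_mod_cast hE.2

lemma cycleRank_pos {E : Z.Cycles} (hE : HasDegree ops Z E) {b : ℕ} (hb : b ≤ Z.dim) :
    1 ≤ cycleRank W Z b := by
  rw [Nat.one_le_iff_ne_zero]
  unfold cycleRank
  rw [Ne, Submodule.finrank_eq_zero]
  intro h
  have h1 := sc_pow (W := W) hE.1 b
  rw [h, Submodule.mem_bot] at h1
  apply hE.tr_ne (W := W)
  rw [show Z.dim = b + (Z.dim - b) by omega, pow_add, h1, zero_mul, map_zero]

lemma hasDegree_lef [Nontrivial (W.H Z)] {E : Z.Cycles} (hZ : IsLefschetzDivisor W Z E) :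
    HasDegree ops Z E := ⟨hZ.1, fun h => tr_top_ne hZ.2 (by
      rw [tr_top hZ.1, h, Rat.cast_zero])⟩

lemma hasDegree_curve (W : WeilCohomology.{u, v} ops) {C : 𝒱.Obj} {E : C.Cycles} (hC : Pool.Agent.Q55.Od.IsCurveWith C E) :
    HasDegree ops C E := by
  refine ⟨hC.2.1, fun h => ?_⟩
  have h1 := tr_top (W := W) hC.2.1
  rw [h, hC.1, pow_one, W.tr_cl (by rw [hC.1]; exact hC.2.1)] at h1
  exact hC.2.2 (by exact_mod_cast h1)

/-- One factor. -/
lemma step_D {E : Z.Cycles} (hE : HasDegree ops Z E) {p q : ℕ} (h : HomEqNumIn W (Y.prod Z) p)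
    (h1 : p ≤ q + Z.dim) (h2 : q ≤ p) : HomEqNumIn W Y q := by
  rw [← nullRank_eq_zero] at h ⊢
  obtain ⟨b, rfl⟩ : ∃ b, p = q + b := ⟨p - q, by omega⟩
  have h3 := null_term (W := W) (Y := Y) (q := q) (show b ≤ Z.dim by omega)
  rw [← Nat.cast_add, h, Nat.le_zero, mul_eq_zero] at h3
  have h4 := cycleRank_pos (W := W) hE (show b ≤ Z.dim by omega)
  rcases h3 with h3 | h3
  · omega
  · exact h3

/-- **The conjecture B from D in one codimension of `X × X × Z`.** -/
theorem lefschetzB_of_prod {D : X.Cycles} (hX : IsLefschetzDivisor W X D) {E : Z.Cycles}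
    (hE : HasDegree ops Z E) {p : ℕ} (h1 : X.dim + 1 ≤ p) (h2 : p ≤ X.dim + 1 + Z.dim)
    (h : HomEqNumIn W ((X.prod X).prod Z) p) : LefschetzB W X D :=
  lefschetzB_of_homEqNumIn hX.1 hX.2 (step_D hE h h2 h1)

/-- Powers. -/
lemma pw_down [Nontrivial (W.H X)] {D : X.Cycles} (hX : IsLefschetzDivisor W X D) {a m : ℕ}
    (ham : a ≤ m) : ∀ p q : ℕ, HomEqNumIn W (pw X m) p → p ≤ q + (m - a) * X.dim → q ≤ p →
      HomEqNumIn W (pw X a) q := by
  induction m, ham using Nat.le_induction with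
  | base =>
    intro p q h h1 h2
    rw [Nat.sub_self, zero_mul] at h1
    obtain rfl : p = q := by omega
    exact h
  | succ m hm ih =>
    intro p q h h1 h2
    rw [show m + 1 - a = (m - a) + 1 by omega, add_mul, one_mul] at h1
    have h3 : ∀ r, p ≤ r + X.dim → r ≤ p → HomEqNumIn W (pw X m) r := fun r hr1 hr2 =>
      step_D (hasDegree_lef (W := W) hX) h hr1 hr2
    by_cases hq : p ≤ q + X.dim
    · exact ih q q (h3 q hq h2) (by omega) le_rfl
    · exact ih (p - X.dim) q (h3 _ (by omega) (by omega)) (by omega) (by omega)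

lemma null_LD {B : Y.Cycles} (hB : Y.IsCyc 1 B) {a : ℤ} {x : W.H Y}
    (hx : x ∈ nullSpace W Y a) (s : ℕ) : (LD W B ^ s) x ∈ nullSpace W Y (a + s) := by
  have hx' := mem_null.1 hx
  refine mem_null.2 ⟨LD_sc hB hx'.1 s, fun y hy => ?_⟩
  rw [LinearMap.pow_mulLeft, LinearMap.mulLeft_apply, W.even_comm (pow_mem' (W.cl_mem hB) s),
    mul_assoc]
  apply hx'.2
  have h1 := LD_sc hB hy s
  rwa [LinearMap.pow_mulLeft, LinearMap.mulLeft_apply,
    show (Y.dim : ℤ) - (a + s) + s = Y.dim - a by ring] at h1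

/-- Monotonicity. -/
lemma D_mono {B : Y.Cycles} (hY : IsLefschetzDivisor W Y B) {q e : ℕ} (hqe : q ≤ e)
    (h : e + q ≤ Y.dim) (hD : HomEqNumIn W Y e) : HomEqNumIn W Y q := by
  rw [homEqNumIn_iff] at hD ⊢
  rw [eq_bot_iff]
  intro x hx
  rw [Submodule.mem_bot]
  have h1 := null_LD hY.1 hx (e - q)
  rw [show (q : ℤ) + ((e - q : ℕ) : ℤ) = e by omega, hD, Submodule.mem_bot] at h1
  refine hlZ_inj hY.2 (p := q) (by omega) (mem_sc.1 (null_le _ hx)).2 ?_
  rw [show Y.dim - 2 * q = (Y.dim - q - e) + (e - q) by omega, pow_add, Module.End.mul_apply, h1,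
    map_zero]

/-- The upper half bounds the lower half. -/
lemma D_lower {B : Y.Cycles} (hY : IsLefschetzDivisor W Y B) {q : ℕ} (h : 2 * q ≤ Y.dim)
    (hD : HomEqNumIn W Y (Y.dim - q)) : HomEqNumIn W Y q := by
  have h1 := defect_nonneg hY (p := q) (by exact_mod_cast h)
  rw [defect_eq_null] at h1
  rw [← nullRank_eq_zero] at hD ⊢
  rw [show ((Y.dim - q : ℕ) : ℤ) = Y.dim - q by omega] at hD
  rw [hD] at h1
  omega

/-- With B the two halves are equivalent. -/
lemma null_symm [Nontrivial (W.H X)] {D : X.Cycles} (hX : IsLefschetzDivisor W X D)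
    (hB : LefschetzB W X D) (m : ℕ) {q r : ℕ} (h : q + r = (pw X m).dim) :
    nullRank W (pw X m) q = nullRank W (pw X m) r := by
  have key : ∀ q r : ℕ, q + r = (pw X m).dim → 2 * q ≤ (pw X m).dim →
      nullRank W (pw X m) q = nullRank W (pw X m) r := by
    intro q r h hq
    have h1 := defect_of_A (lef_pw hX m) hq (A_of_B hX hB m hq)
    rw [defect_eq_null, show ((pw X m).dim : ℤ) - q = r by omega] at h1
    omega
  by_cases hq : 2 * q ≤ (pw X m).dim
  · exact key q r h hq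
  · exact (key r q (by omega) (by omega)).symm

/-- **D in one codimension of a power gives B.** -/
theorem lefschetzB_of_pw [Nontrivial (W.H X)] {D : X.Cycles} (hX : IsLefschetzDivisor W X D)
    {m p : ℕ} (h1 : X.dim + 1 ≤ p) (h2 : p ≤ m * X.dim + 1) (h : HomEqNumIn W (pw X m) p) :
    LefschetzB W X D := by
  rcases Nat.eq_zero_or_pos m with rfl | hm
  · obtain h0 : X.dim = 0 := by omega
    apply lefschetzB_of_homEqNumIn hX.1 hX.2
    rw [← nullRank_eq_zero]
    exact nullRank_out (Or.inr (by rw [dim_prod]; omega))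
  · refine lefschetzB_of_homEqNumIn hX.1 hX.2 (pw_down hX hm p (X.dim + 1) h ?_ h1)
    obtain ⟨r, rfl⟩ : ∃ r, m = r + 1 := ⟨m - 1, by omega⟩
    rw [Nat.add_sub_cancel]
    nlinarith

/-- All codimensions up to `e` and from `dim - e` on. -/
theorem pw_all [Nontrivial (W.H X)] {D : X.Cycles} (hX : IsLefschetzDivisor W X D)
    (hB : LefschetzB W X D) {m p e : ℕ} (he : e = min p ((m + 1) * X.dim - p))
    (h : HomEqNumIn W (pw X m) p) (hp : p ≤ (m + 1) * X.dim) {q : ℕ}
    (hq : q ≤ e ∨ (m + 1) * X.dim ≤ q + e) : HomEqNumIn W (pw X m) q := by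
  have hd : (pw X m).dim = (m + 1) * X.dim := dim_pw X m
  rw [← hd] at he hp hq
  have h1 : HomEqNumIn W (pw X m) e := by
    rcases le_total p ((pw X m).dim - p) with h2 | h2
    · rw [min_eq_left h2] at he
      rwa [he]
    · rw [min_eq_right h2] at he
      rw [← nullRank_eq_zero] at h ⊢
      rw [← h]
      exact null_symm hX hB m (by omega)
  have h2 : ∀ q, q ≤ e → HomEqNumIn W (pw X m) q := fun q hq =>
    D_mono (lef_pw hX m) hq (by omega) h1
  rcases hq with hq | hq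
  · exact h2 q hq
  · by_cases hq2 : q ≤ (pw X m).dim
    · have h3 := h2 ((pw X m).dim - q) (by omega)
      rw [← nullRank_eq_zero] at h3 ⊢
      rw [← h3]
      exact null_symm hX hB m (by omega)
    · rw [← nullRank_eq_zero]
      exact nullRank_out (Or.inr (by omega))

/-- Smaller powers. -/
theorem pw_small [Nontrivial (W.H X)] {D : X.Cycles} (hX : IsLefschetzDivisor W X D)
    (hB : LefschetzB W X D) {m p e : ℕ} (hn : 1 ≤ X.dim)
    (he : e = min p ((m + 1) * X.dim - p)) (h : HomEqNumIn W (pw X m) p)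
    (hp : p ≤ (m + 1) * X.dim) {a : ℕ} (ha : (a + 1) * X.dim ≤ 2 * e) :
    HomEqNum W (pw X a) := by
  have ham : a ≤ m := by
    have h1 : (a + 1) * X.dim ≤ (m + 1) * X.dim := by omega
    have h2 := Nat.le_of_mul_le_mul_right h1 hn
    omega
  have hd : (pw X a).dim = (a + 1) * X.dim := dim_pw X a
  have h2 : ∀ q, q ≤ e → HomEqNumIn W (pw X a) q := fun q hq =>
    pw_down hX ham q q (pw_all hX hB he h hp (Or.inl hq)) (by omega) le_rfl
  rw [homEqNum_iff_all]
  intro q
  by_cases hq : q ≤ e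
  · exact h2 q hq
  · by_cases hq2 : q ≤ (pw X a).dim
    · have h3 := h2 ((pw X a).dim - q) (by omega)
      rw [← nullRank_eq_zero] at h3 ⊢
      rw [← h3]
      exact null_symm hX hB a (by omega)
    · rw [← nullRank_eq_zero]
      exact nullRank_out (Or.inr (by omega))

/-- The number of numerically trivial classes in one codimension. -/
theorem pw_sols [Nontrivial (W.H X)] {D : X.Cycles} (hX : IsLefschetzDivisor W X D) (a : ℕ)
    (q : ℤ) : ∀ (r : ℕ) (p : ℤ), nullRank W (pw X a) q * sols (fun _ => X.dim) r (p - q) ≤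
      nullRank W (pw X (a + r)) p
  | 0, p => by
    unfold sols
    split_ifs with h
    · obtain rfl : p = q := by omega
      rw [mul_one]
      exact le_rfl
    · exact Nat.zero_le _
  | r + 1, p => by
    refine le_trans ?_ (null_law' (W := W) (pw X (a + r)) X p)
    show nullRank W (pw X a) q *
      ∑ b ∈ Finset.range (X.dim + 1), sols (fun _ => X.dim) r (p - q - b) ≤ _
    rw [Finset.mul_sum]
    refine Finset.sum_le_sum fun b hb => ?_
    rw [Finset.mem_range] at hb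
    have h1 := pw_sols hX a q r (p - b)
    rw [show p - b - q = p - q - (b : ℤ) by ring] at h1
    have h2 := cycleRank_pos (W := W) (hasDegree_lef hX) (show b ≤ X.dim by omega)
    exact h1.trans (Nat.le_mul_of_pos_left _ h2)

/-- The total number of numerically trivial classes. -/
theorem pw_count (a : ℕ) : ∀ r : ℕ,
    (∑ q ∈ Finset.range ((a + 1) * X.dim + 1), nullRank W (pw X a) q) * algRank W X ^ r ≤
      ∑ p ∈ Finset.range ((a + r + 1) * X.dim + 1), nullRank W (pw X (a + r)) p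
  | 0 => by
    rw [pow_zero, mul_one]
    exact le_rfl
  | r + 1 => by
    have h1 := pw_count a r
    have h2 := null_total (W := W) (pw X (a + r)) X
    have hd : (pw X (a + r)).dim = (a + r + 1) * X.dim := dim_pw X (a + r)
    have hd2 : ((pw X (a + r)).prod X).dim = (a + (r + 1) + 1) * X.dim := dim_pw X (a + (r + 1))
    rw [hd, hd2] at h2
    rw [pow_succ, ← mul_assoc, mul_comm _ (algRank W X)]
    exact (Nat.mul_le_mul_left _ h1).trans h2

/-- Products with a curve. -/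
lemma tower_down {C : 𝒱.Obj} {E : C.Cycles} (hC : Pool.Agent.Q55.Od.IsCurveWith C E)
    (V : 𝒱.Obj) (N : ℕ) : ∀ p q : ℕ, HomEqNumIn W (tower V (fun _ => C) N) p → p ≤ q + N →
      q ≤ p → HomEqNumIn W V q := by
  induction N with
  | zero =>
    intro p q h h1 h2
    obtain rfl : p = q := by omega
    exact h
  | succ N ih =>
    intro p q h h1 h2
    have h3 : ∀ r, p ≤ r + 1 → r ≤ p → HomEqNumIn W (tower V (fun _ => C) N) r :=
      fun r hr1 hr2 => step_D (hasDegree_curve W hC) h (by rw [hC.1]; exact hr1) hr2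
    by_cases hq : p ≤ q + N
    · exact ih p q (h3 p (by omega) le_rfl) hq h2
    · exact ih (p - 1) q (h3 _ (by omega) (by omega)) (by omega) (by omega)

lemma dim_tower_curve {C : 𝒱.Obj} {E : C.Cycles} (hC : Pool.Agent.Q55.Od.IsCurveWith C E)
    (V : 𝒱.Obj) : ∀ N, (tower V (fun _ => C) N).dim = V.dim + N
  | 0 => rfl
  | N + 1 => by
    have h := dim_tower_curve hC V N
    have h2 : (tower V (fun _ => C) (N + 1)).dim = (tower V (fun _ => C) N).dim + C.dim :=
      dim_prod _ _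
    rw [h2, h, hC.1]
    ring

/-- **D along one line.** -/
theorem line_law {C : 𝒱.Obj} {E : C.Cycles} (hC : Pool.Agent.Q55.Od.IsCurveWith C E) {t : ℤ}
    (h : ∀ (V : 𝒱.Obj) (p : ℕ), 2 * (p : ℤ) = V.dim + t → HomEqNumIn W V p) (V : 𝒱.Obj) :
    HomEqNum W V := by
  rw [homEqNum_iff_all]
  intro q
  rcases le_total (2 * (q : ℤ)) (V.dim + t) with hq | hq
  · obtain ⟨N, hN⟩ : ∃ N : ℕ, (N : ℤ) = V.dim + t - 2 * q :=
      ⟨(V.dim + t - 2 * q).toNat, by omega⟩
    refine tower_down hC V N (q + N) q (h _ _ ?_) le_rfl (by omega)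
    rw [dim_tower_curve hC]
    push_cast
    omega
  · obtain ⟨N, hN⟩ : ∃ N : ℕ, (N : ℤ) = 2 * q - V.dim - t :=
      ⟨(2 * q - V.dim - t).toNat, by omega⟩
    refine tower_down hC V N q q (h _ _ ?_) (by omega) le_rfl
    rw [dim_tower_curve hC]
    push_cast
    omega

/-- **D for the cycles of one dimension**: the cycles of smaller dimension. -/
theorem dim_law {C : 𝒱.Obj} {E : C.Cycles} (hC : Pool.Agent.Q55.Od.IsCurveWith C E) {r : ℕ}
    (h : ∀ (V : 𝒱.Obj) (p : ℕ), p + r = V.dim → HomEqNumIn W V p) {V : 𝒱.Obj} {q : ℕ}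
    (hq : V.dim ≤ q + r) : HomEqNumIn W V q := by
  refine tower_down hC V (q + r - V.dim) q q (h _ _ ?_) (by omega) le_rfl
  rw [dim_tower_curve hC]
  omega

theorem dim_B {r : ℕ} (h : ∀ (V : 𝒱.Obj) (q : ℕ), V.dim ≤ q + r → HomEqNumIn W V q)
    {V : 𝒱.Obj} {D : V.Cycles} (hV : IsLefschetzDivisor W V D) :
    (V.dim ≤ r + 1 → LefschetzB W V D) ∧ (∀ q ≤ r, HomEqNumIn W V q) ∧
      (V.dim ≤ 2 * r + 1 → HomEqNum W V) := by
  have h1 : ∀ q ≤ r, HomEqNumIn W V q := by
    intro q hq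
    by_cases h2 : 2 * q ≤ V.dim
    · exact D_lower hV h2 (h V _ (by omega))
    · exact h V q (by omega)
  refine ⟨fun h2 => lefschetzB_of_homEqNumIn hV.1 hV.2 (h _ _ ?_), h1, fun h2 => ?_⟩
  · rw [dim_prod]
    omega
  · rw [homEqNum_iff_all]
    intro q
    by_cases hq : q ≤ r
    · exact h1 q hq
    · exact h V q (by omega)

end Pool.Agent.Q8.DC
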