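import Pool.Agent.Q8.GP.Main
import Pool.Agent.Q8.DC.Defs
import Pool.Agent.H447R3.DegB

/-!
# Numerically trivial classes
-/

open CategoryTheory AlgebraicGeometry

universe u v

namespace Pool.Agent.Q8.DC

open Module
open Pool.Agent.H914 Pool.Agent.H914.VarClass Pool.Agent.H914.VarClass.Obj
  Pool.Agent.H914.WeilCohomology Pool.Agent.Y133.Half Pool.Agent.Q55.Fin Pool.Agent.Q8.KC
  Pool.Agent.TH133.PW Pool.Agent.W536.RR Pool.Agent.H281R3.HT Pool.Agent.W550.B
  Pool.Agent.Q8.OL Pool.Agent.W534 Pool.Agent.H447 Pool.Agent.Q8.GP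

variable {k : Type u} [Field k] {𝒱 : VarClass k} {ops : CycleOps 𝒱}
  {W : WeilCohomology.{u, v} ops} {X Y Z : 𝒱.Obj}

lemma mem_null {p : ℤ} {x : W.H Y} : x ∈ nullSpace W Y p ↔ x ∈ spanCycles W Y p ∧
    ∀ y ∈ spanCycles W Y (Y.dim - p), W.tr Y (x * y) = 0 := by
  constructor
  · intro h
    refine Submodule.span_induction (p := fun x _ => x ∈ spanCycles W Y p ∧
      ∀ y ∈ spanCycles W Y (Y.dim - p), W.tr Y (x * y) = 0) ?_ ?_ ?_ ?_ h
    · intro x hx
      exact hx
    · exact ⟨Submodule.zero_mem _, fun y _ => by rw [zero_mul, map_zero]⟩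
    · intro a b _ _ ha hb
      exact ⟨Submodule.add_mem _ ha.1 hb.1, fun y hy => by
        rw [add_mul, map_add, ha.2 y hy, hb.2 y hy, add_zero]⟩
    · intro c a _ ha
      exact ⟨Submodule.smul_mem _ c ha.1, fun y hy => by
        rw [smul_mul_assoc, map_smul, ha.2 y hy, smul_zero]⟩
  · intro h
    exact Submodule.subset_span h

lemma null_le (p : ℤ) : nullSpace W Y p ≤ spanCycles W Y p := fun _ h => (mem_null.1 h).1

lemma nullRank_le (p : ℤ) : nullRank W Y p ≤ cycleRank W Y p := Submodule.finrank_mono (null_le p)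

lemma sc_even {a : ℤ} {x : W.H Y} (hx : x ∈ spanCycles W Y a) (y : W.H Y) : x * y = y * x := by
  refine Submodule.span_induction (p := fun x _ => x * y = y * x) ?_ ?_ ?_ ?_ hx
  · rintro _ ⟨p, rfl, z, hz, rfl⟩
    exact W.even_comm (W.cl_mem hz) y
  · rw [zero_mul, mul_zero]
  · intro a b _ _ ha hb
    rw [add_mul, mul_add, ha, hb]
  · intro t a _ ha
    rw [smul_mul_assoc, mul_smul_comm, ha]

/-- Orthogonality to the cycles. -/
lemma mem_null_of_cyc {p : ℤ} {x : W.H Y} (hx : x ∈ spanCycles W Y p)
    (h : ∀ (q : ℕ) (w : Y.Cycles), (q : ℤ) = Y.dim - p → Y.IsCyc q w →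
      W.tr Y (x * W.cl Y w) = 0) : x ∈ nullSpace W Y p := by
  refine mem_null.2 ⟨hx, fun y hy => ?_⟩
  refine Submodule.span_induction (p := fun y _ => W.tr Y (x * y) = 0) ?_ ?_ ?_ ?_ hy
  · rintro _ ⟨q, hq, w, hw, rfl⟩
    exact h q w hq hw
  · rw [mul_zero, map_zero]
  · intro a b _ _ ha hb
    rw [mul_add, map_add, ha, hb, add_zero]
  · intro t a _ ha
    rw [mul_smul_comm, map_smul, ha, smul_zero]

/-- The conjecture D in one codimension says that the numerically trivial classes are zero. -/
lemma homEqNumIn_iff {p : ℕ} : HomEqNumIn W Y p ↔ nullSpace W Y p = ⊥ := by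
  by_cases hp : p ≤ Y.dim
  · constructor
    · intro h
      rw [eq_bot_iff]
      intro x hx
      rw [Submodule.mem_bot]
      refine h.span (p := Y.dim - p) (by omega) (mem_null.1 hx).1 fun w hw => ?_
      rw [W.even_comm (W.cl_mem hw)]
      refine (mem_null.1 hx).2 _ (Submodule.subset_span ⟨Y.dim - p, by omega, w, hw, rfl⟩)
    · intro h z hz h1
      have h2 : W.cl Y z ∈ nullSpace W Y p := by
        refine mem_null_of_cyc (Submodule.subset_span ⟨p, rfl, z, hz, rfl⟩) ?_
        intro q w hq hw
        obtain rfl : q = Y.dim - p := by omega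
        rw [tr_mul_cl hz hw (by omega), h1 w hw, Rat.cast_zero]
      rw [h] at h2
      exact (Submodule.mem_bot _).1 h2
  · constructor
    · intro _
      rw [eq_bot_iff]
      refine (null_le _).trans ?_
      rw [sc_bot (Or.inr (by omega))]
    · intro _ z hz _
      have h2 := W.cl_mem hz
      rw [W.gr_eq_bot _ _ (by omega)] at h2
      exact (Submodule.mem_bot _).1 h2

lemma nullRank_eq_zero {p : ℕ} : nullRank W Y p = 0 ↔ HomEqNumIn W Y p := by
  rw [homEqNumIn_iff, nullRank, Submodule.finrank_eq_zero]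

lemma nullRank_out {p : ℤ} (h : p < 0 ∨ (Y.dim : ℤ) < p) : nullRank W Y p = 0 := by
  have h1 := nullRank_le (W := W) (Y := Y) p
  unfold cycleRank at h1
  rw [sc_bot h, finrank_bot] at h1
  omega

lemma homEqNum_iff_all : HomEqNum W Y ↔ ∀ p, HomEqNumIn W Y p := by
  constructor
  · intro h p
    by_cases hp : p ≤ Y.dim
    · exact h p hp
    · rw [← nullRank_eq_zero]
      exact nullRank_out (Or.inr (by omega))
  · intro h p _
    exact h p

/-- One half of the symmetry of the rank of the pairing. -/
lemma pair_le (p : ℤ) : cycleRank W Y p + nullRank W Y (Y.dim - p) ≤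
    cycleRank W Y (Y.dim - p) + nullRank W Y p := by
  set A := spanCycles W Y p with hA
  set B := spanCycles W Y (Y.dim - p) with hB
  let φ : A →ₗ[W.K] Module.Dual W.K B :=
    { toFun := fun a => W.tr Y ∘ₗ LinearMap.mulLeft W.K (a : W.H Y) ∘ₗ B.subtype
      map_add' := by
        intro a b
        ext c
        simp [add_mul]
      map_smul' := by
        intro a b
        ext c
        simp }
  have hφ : ∀ (a : A) (b : B), φ a b = W.tr Y ((a : W.H Y) * b) := fun _ _ => rfl
  have hker : finrank W.K (LinearMap.ker φ) = nullRank W Y p := by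
    have h1 : (LinearMap.ker φ).map A.subtype = nullSpace W Y p := by
      ext x
      constructor
      · rintro ⟨a, ha, rfl⟩
        refine mem_null.2 ⟨a.2, fun y hy => ?_⟩
        have := congrArg (fun F => F ⟨y, hy⟩) (LinearMap.mem_ker.1 ha)
        exact this
      · intro hx
        refine ⟨⟨x, null_le p hx⟩, ?_, rfl⟩
        rw [SetLike.mem_coe, LinearMap.mem_ker]
        ext b
        exact (mem_null.1 hx).2 b b.2
    rw [nullRank, ← h1]
    exact (LinearEquiv.finrank_eq (Submodule.equivMapOfInjective _ A.injective_subtype _))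
  set N : Submodule W.K B := (nullSpace W Y (Y.dim - p)).comap B.subtype with hN
  have hNr : finrank W.K N = nullRank W Y (Y.dim - p) := by
    have h1 : N.map B.subtype = nullSpace W Y (Y.dim - p) := by
      rw [hN, Submodule.map_comap_subtype, inf_eq_right]
      exact null_le _
    rw [nullRank, ← h1]
    exact (LinearEquiv.finrank_eq (Submodule.equivMapOfInjective _ B.injective_subtype _))
  have hran : LinearMap.range φ ≤ N.dualAnnihilator := by
    rintro _ ⟨a, rfl⟩
    rw [Submodule.mem_dualAnnihilator]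
    rintro b hb
    rw [hφ]
    have hb' : (b : W.H Y) ∈ nullSpace W Y (Y.dim - p) := hb
    have h2 := (mem_null.1 hb').2 a (by rw [sub_sub_cancel]; exact a.2)
    rw [sc_even a.2]
    exact h2
  have h1 := LinearMap.finrank_range_add_finrank_ker φ
  have h2 := Submodule.finrank_mono hran
  have h3 := Subspace.finrank_add_finrank_dualAnnihilator_eq N
  rw [hker] at h1
  rw [hNr] at h3
  have e1 : finrank W.K A = cycleRank W Y p := rfl
  have e2 : finrank W.K B = cycleRank W Y (Y.dim - p) := rfl
  omega

/-- **The rank of the pairing is symmetric**, and the defect is the difference of the dimensions of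
the spaces of numerically trivial classes. -/
lemma defect_eq_null (p : ℤ) : defect W Y p = (nullRank W Y (Y.dim - p) : ℤ) - nullRank W Y p := by
  have h1 := pair_le (W := W) (Y := Y) p
  have h2 := pair_le (W := W) (Y := Y) (Y.dim - p)
  rw [sub_sub_cancel] at h2
  unfold defect
  omega

end Pool.Agent.Q8.DC
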