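import Pool.Agent.Q8.DC.Null

/-!
# Numerically trivial classes on a product
-/

open CategoryTheory AlgebraicGeometry

universe u v

namespace Pool.Agent.Q8.DC

open Module
open Pool.Agent.H914 Pool.Agent.H914.VarClass Pool.Agent.H914.VarClass.Obj
  Pool.Agent.H914.WeilCohomology Pool.Agent.Y133.Half Pool.Agent.Q55.Fin Pool.Agent.Q8.KC
  Pool.Agent.TH133.PW Pool.Agent.W536.RR Pool.Agent.H281R3.HT Pool.Agent.W550.B
  Pool.Agent.Q8.OL Pool.Agent.W534 Pool.Agent.H447 Pool.Agent.Q8.GP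

section LA

variable {K V : Type*} [Field K] [AddCommGroup V] [Module K V]

lemma finrank_pi_sub' [FiniteDimensional K V] {ι : Type*} [Fintype ι] (p : ι → Submodule K V) :
    finrank K (Submodule.pi Set.univ p) = ∑ i, finrank K (p i) := by
  let e : (Submodule.pi Set.univ p) ≃ₗ[K] (∀ i, p i) :=
    { toFun := fun x i => ⟨x.1 i, x.2 i (Set.mem_univ _)⟩
      map_add' := fun _ _ => rfl
      map_smul' := fun _ _ => rfl
      invFun := fun y => ⟨fun i => (y i : V), fun i _ => (y i).2⟩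
      left_inv := fun _ => rfl
      right_inv := fun _ => rfl }
  rw [LinearEquiv.finrank_eq e, finrank_pi_fintype]

end LA

variable {k : Type u} [Field k] {𝒱 : VarClass k} {ops : CycleOps 𝒱}
  {W : WeilCohomology.{u, v} ops} {X Y Z : 𝒱.Obj}

/-- Dual families for the trace pairing. -/
lemma exists_dual_fam {ι : Type*} [Fintype ι] [DecidableEq ι] {z : ι → W.H Z}
    (hz : LinearIndependent W.K z) :
    ∃ y : ι → W.H Z, ∀ i j, W.tr Z (z i * y j) = if i = j then 1 else 0 := by
  have h : ∀ j, ∃ y : W.H Z, ∀ i, W.tr Z (z i * y) = if i = j then 1 else 0 := by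
    intro j
    obtain ⟨f, hf⟩ : ∃ f : W.H Z →ₗ[W.K] W.K, ∀ i, f (z i) = if i = j then 1 else 0 := by
      obtain ⟨g, hg⟩ := LinearMap.exists_extend ((Finsupp.lapply j) ∘ₗ hz.repr)
      refine ⟨g, fun i => ?_⟩
      have h1 := congrArg (fun F => F ⟨z i, Submodule.subset_span ⟨i, rfl⟩⟩) hg
      have h2 : g (z i) = hz.repr ⟨z i, Submodule.subset_span ⟨i, rfl⟩⟩ j := h1
      rw [h2, hz.repr_eq_single i _ rfl, Finsupp.single_apply]
    obtain ⟨y, hy⟩ := exists_dual f
    exact ⟨y, fun i => by rw [← hy, hf]⟩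
  choose y hy using h
  exact ⟨y, fun i j => hy j i⟩

/-- A family of independent classes on `Z` and spaces of classes on `Y`. -/
lemma finrank_fam {ι : Type*} [Fintype ι] {z : ι → W.H Z} (hz : LinearIndependent W.K z)
    {S : ι → Submodule W.K (W.H Y)} {N : Submodule W.K (W.H (Y.prod Z))}
    (hN : ∀ i, ∀ x ∈ S i, W.map (fst Y Z) x * W.map (snd Y Z) (z i) ∈ N) :
    ∑ i, finrank W.K (S i) ≤ finrank W.K N := by
  classical
  obtain ⟨y, hy⟩ := exists_dual_fam hz
  let Φ : (ι → W.H Y) →ₗ[W.K] W.H (Y.prod Z) :=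
    { toFun := fun x => ∑ i, W.map (fst Y Z) (x i) * W.map (snd Y Z) (z i)
      map_add' := by
        intro a b
        rw [← Finset.sum_add_distrib]
        refine Finset.sum_congr rfl fun i _ => ?_
        rw [Pi.add_apply, map_add, add_mul]
      map_smul' := by
        intro c a
        rw [RingHom.id_apply, Finset.smul_sum]
        refine Finset.sum_congr rfl fun i _ => ?_
        rw [Pi.smul_apply, map_smul, smul_mul_assoc] }
  have hΦ : ∀ x, Φ x = ∑ i, W.map (fst Y Z) (x i) * W.map (snd Y Z) (z i) := fun _ => rfl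
  have hinj : ∀ x, Φ x = 0 → x = 0 := by
    intro x hx
    funext j
    have h1 : W.push (fst Y Z) (Φ x * W.map (snd Y Z) (y j)) = x j := by
      rw [hΦ, Finset.sum_mul, map_sum, Finset.sum_eq_single j]
      · rw [mul_assoc, ← map_mul (W.map (snd Y Z)), push_fst', hy, if_pos rfl, one_smul]
      · intro i _ hij
        rw [mul_assoc, ← map_mul (W.map (snd Y Z)), push_fst', hy, if_neg hij, zero_smul]
      · intro h
        exact absurd (Finset.mem_univ _) h
    rw [hx, zero_mul, map_zero] at h1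
    exact h1.symm
  rw [← finrank_pi_sub' S, ← finrank_map_injOn Φ (Submodule.pi Set.univ S) (fun x _ => hinj x)]
  apply Submodule.finrank_mono
  rintro _ ⟨x, hx, rfl⟩
  rw [hΦ]
  exact Submodule.sum_mem _ fun i _ => hN i _ (hx i (Set.mem_univ _))

lemma sc_prod {a b : ℤ} {x : W.H Y} {z : W.H Z} (hx : x ∈ spanCycles W Y a)
    (hz : z ∈ spanCycles W Z b) :
    W.map (fst Y Z) x * W.map (snd Y Z) z ∈ spanCycles W (Y.prod Z) (a + b) :=
  sc_mul (sc_map _ hx) (sc_map _ hz)

/-- The external product with a numerically trivial class on the second factor. -/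
lemma null_prod_right {a b : ℤ} {x : W.H Y} {z : W.H Z} (hx : x ∈ spanCycles W Y a)
    (hz : z ∈ nullSpace W Z b) :
    W.map (fst Y Z) x * W.map (snd Y Z) z ∈ nullSpace W (Y.prod Z) (a + b) := by
  have hz' := mem_null.1 hz
  refine mem_null.2 ⟨sc_prod hx hz'.1, fun w hw => ?_⟩
  rw [sc_even (sc_map (fst Y Z) hx), mul_assoc]
  have h1 : W.tr (Y.prod Z) (W.map (snd Y Z) z * (W.map (fst Y Z) x * w)) =
      W.tr Z (z * W.push (snd Y Z) (W.map (fst Y Z) x * w)) := by
    rw [sc_even (sc_map (snd Y Z) hz'.1), sc_even hz'.1, W.tr_push]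
  rw [h1]
  apply hz'.2
  have h2 := sc_push (snd Y Z) (sc_mul (sc_map (fst Y Z) hx) hw)
  have h3 := dim_prod Y Z
  rwa [show a + (((Y.prod Z).dim : ℤ) - (a + b)) + ((Z.dim : ℤ) - (Y.prod Z).dim) = Z.dim - b by
    ring] at h2

/-- The external product with a numerically trivial class on the first factor. -/
lemma null_prod_left {a b : ℤ} {x : W.H Y} {z : W.H Z} (hx : x ∈ nullSpace W Y a)
    (hz : z ∈ spanCycles W Z b) :
    W.map (fst Y Z) x * W.map (snd Y Z) z ∈ nullSpace W (Y.prod Z) (a + b) := by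
  have hx' := mem_null.1 hx
  refine mem_null.2 ⟨sc_prod hx'.1 hz, fun w hw => ?_⟩
  rw [mul_assoc]
  have h1 : W.tr (Y.prod Z) (W.map (fst Y Z) x * (W.map (snd Y Z) z * w)) =
      W.tr Y (x * W.push (fst Y Z) (W.map (snd Y Z) z * w)) := by
    rw [sc_even (sc_map (fst Y Z) hx'.1), sc_even hx'.1, W.tr_push]
  rw [h1]
  apply hx'.2
  have h2 := sc_push (fst Y Z) (sc_mul (sc_map (snd Y Z) hz) hw)
  have h3 := dim_prod Y Z
  rwa [show b + (((Y.prod Z).dim : ℤ) - (a + b)) + ((Y.dim : ℤ) - (Y.prod Z).dim) = Y.dim - a by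
    ring] at h2

end Pool.Agent.Q8.DC
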